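import Pool.Agent.Helper79.GT.St1

/-!
# Project GT, module AHS: the player who is ahead (situational superko)
-/

set_option autoImplicit false

namespace Pool.Agent.Helper89.GT

open Pool.Agent.Helper19.SK Pool.Agent.Helper79.GS Pool.Agent.Helper79.GT

private theorem not_ahead_other {P : Type} (A : Arena P) (c : Bool) (u : P) (h : ahead A c u) :
    ¬ ahead A (!c) u := by
  cases c <;> simp_all [ahead]

private theorem ahead_rv {P : Type} (A : Arena P) (hSc : Sc A) (c : Bool) (u w : P)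
    (h : ahead A c u) (hr : rv A c u w) : ahead A c w := by
  cases c
  · have h1 : rv A true w u := ⟨hr.2, hr.1⟩
    have h2 := hSc w u h1
    simp only [ahead] at h ⊢
    simp only [Bool.false_eq_true, if_false] at h ⊢
    omega
  · have h2 := hSc u w hr
    simp only [ahead, if_true] at h ⊢
    omega

private theorem agree {P : Type} (Cm : Set P) (H H₁ : Set (Bool × P)) (e : Bool) (w : P)
    (hw : w ∈ Cm) (hH : ∀ x, x ∉ Cm → ∀ s, ((s, x) ∈ H ↔ (s, x) ∈ H₁)) :
    ∀ x, x ∉ Cm → ∀ s, ((s, x) ∈ insert (e, w) H ↔ (s, x) ∈ H₁) := by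
  intro x hx s
  rw [← hH x hx s]
  constructor
  · rintro (h | h)
    · have h1 : x = w := congrArg Prod.snd h
      exact absurd (h1 ▸ hw) hx
    · exact h
  · exact fun h => Or.inr h

theorem hAHS (hBES : StBES) : Pool.Agent.Helper79.GT.StAHS := by
  intro P _ A hSc EX Cm H₁ hcl hEX c u H hu huH hH hah
  have hB := hBES P A hSc EX Cm H₁ hcl hEX
  have h1 : MWs A true (insert (!c, u) H) true (!c) u ↔ XINS A EX (insert (!c, u) H) (!c) u :=
    hB (!c) u (insert (!c, u) H) true hu (Set.mem_insert _ _) (agree Cm H H₁ _ u hu hH)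
      (not_ahead_other A c u hah)
  have h2 : ∀ w, rv A c u w → (MWs A true (insert (!c, w) H) false (!c) w ↔
      XINS A EX (insert (!c, w) H) (!c) w) := by
    intro w hw
    have hwC : w ∈ Cm := hcl c u w hu hw
    exact hB (!c) w (insert (!c, w) H) false hwC (Set.mem_insert _ _)
      (agree Cm H H₁ _ w hwC hH) (not_ahead_other A c w (ahead_rv A hSc c u w hah hw))
  have h3 := hEX c u hu H hH
  have hok : ∀ w, okk true c w H ↔ (!c, w) ∉ H := fun w => by simp [okk]
  rw [MWs]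
  constructor
  · rintro (h | ⟨_, h⟩ | ⟨b', hmv, hb', h⟩)
    · exact absurd h.1 (by simp)
    · exact Or.inr (Or.inl (fun h' => h (h1.mpr h')))
    · rw [hok] at hb'
      by_cases hr : A.mv (!c) b' u
      · exact Or.inr (Or.inr ⟨b', ⟨hmv, hr⟩, hb', fun h' => h ((h2 b' ⟨hmv, hr⟩).mpr h')⟩)
      · exact Or.inl (h3.mp ⟨b', hmv, hr, hb', h⟩)
  · rintro (h | h | ⟨w, hrw, hwH, h⟩)
    · obtain ⟨b', hmv, _, hb', h'⟩ := h3.mpr h
      exact Or.inr (Or.inr ⟨b', hmv, (hok b').mpr hb', h'⟩)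
    · exact Or.inr (Or.inl ⟨rfl, fun h' => h (h1.mp h')⟩)
    · exact Or.inr (Or.inr ⟨w, hrw.1, (hok w).mpr hwH, fun h' => h ((h2 w hrw).mp h')⟩)

end Pool.Agent.Helper89.GT
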